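import Mathlib
import Pool.Agent.H892.KT.Stm

/-!
# Kato surfaces and birational structures (MP_686bb6_ag): one step of the iteration

Task KT-OP of the plan `H892/KT`.
-/

set_option autoImplicit false

open Filter Topology Set

namespace Pool.Agent.H287.KT

open Pool.Agent.H892.KT

theorem hat_zero (p : ℂ × ℂ) : hat p 0 = p := by
  simp [hat]

theorem norm_bA {p : ℂ × ℂ} (h : ‖p‖ ≤ 1) : ‖bA p‖ = ‖p.2‖ := by
  have h1 : ‖p.1‖ ≤ 1 := (norm_fst_le p).trans h
  have h2 : ‖p.1 * p.2‖ ≤ ‖p.2‖ := by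
    rw [norm_mul]
    exact mul_le_of_le_one_left (norm_nonneg _) h1
  unfold bA
  rw [Prod.norm_def]
  exact max_eq_right h2

theorem t_OP (h1 : S_HATLIP) (h2 : S_QUOT) (h3 : S_INVLIP) : S_OP := by
  intro n _ K N i e he hO
  obtain ⟨L, r, hL, hr, hball, hlip⟩ := h3 e he.mem he.zero he.diff'
  obtain ⟨C, hC, hCO⟩ := hO.exists_pos
  have hCO' := hCO.bound
  have hsrc : ∀ᶠ y in 𝓝 (0 : ℂ × ℂ), y ∈ e.source := e.open_source.mem_nhds he.mem
  have hcont : ContinuousAt e 0 := e.continuousAt he.mem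
  have hsm : ∀ᶠ y in 𝓝 (0 : ℂ × ℂ), e y ∈ Metric.ball (0 : ℂ × ℂ) r := by
    have : Metric.ball (0 : ℂ × ℂ) r ∈ 𝓝 (e 0) := by
      rw [he.zero]
      exact Metric.ball_mem_nhds _ hr
    exact hcont this
  obtain ⟨δ, hδ, hδ'⟩ := Metric.eventually_nhds_iff.1 (hCO'.and (hsrc.and hsm))
  have hL0 : 0 < L := lt_of_lt_of_le one_pos hL
  obtain ⟨ε₀, hε₀, hεa, hεb, hεc, hεd, hεe⟩ : ∃ ε₀ : ℝ, 0 < ε₀ ∧ ε₀ ≤ 1 / 4 ∧ ε₀ ≤ δ ∧
      ε₀ ≤ r / 3 ∧ ε₀ ≤ 1 / (4 * (L * C)) ∧ ε₀ ≤ 1 / (20 * L) := by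
    refine ⟨min (1 / 4) (min δ (min (r / 3) (min (1 / (4 * (L * C))) (1 / (20 * L))))), ?_, ?_,
      ?_, ?_, ?_, ?_⟩
    · have ha : (0 : ℝ) < 1 / 4 := by norm_num
      have hb : 0 < r / 3 := by positivity
      have hc : 0 < 1 / (4 * (L * C)) := by positivity
      have hd : 0 < 1 / (20 * L) := by positivity
      exact lt_min ha (lt_min hδ (lt_min hb (lt_min hc hd)))
    · exact min_le_left _ _
    · exact (min_le_right _ _).trans (min_le_left _ _)
    · exact (min_le_right _ _).trans ((min_le_right _ _).trans (min_le_left _ _))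
    · exact (min_le_right _ _).trans ((min_le_right _ _).trans ((min_le_right _ _).trans
        (min_le_left _ _)))
    · exact (min_le_right _ _).trans ((min_le_right _ _).trans ((min_le_right _ _).trans
        (min_le_right _ _)))
  refine ⟨ε₀, hε₀, by linarith, ?_⟩
  intro ε hε hεε V W hW
  have hε4 : ε ≤ 1 / 4 := hεε.trans hεa
  have hLC : L * C * ε ≤ 1 / 4 := by
    have hp : 0 < 4 * (L * C) := by positivity
    have hq : ε ≤ 1 / (4 * (L * C)) := hεε.trans hεd
    rw [le_div_iff₀ hp] at hq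
    linarith
  have hL20 : 20 * L * ε ≤ 1 := by
    have hp : 0 < 20 * L := by positivity
    have hq : ε ≤ 1 / (20 * L) := hεε.trans hεe
    rw [le_div_iff₀ hp] at hq
    linarith
  have hεr : ε + 5 * ε ^ 2 < r := by
    have hq : ε ≤ r / 3 := hεε.trans hεc
    nlinarith
  -- basic facts
  have hsig : ∀ y ∈ V i, ‖K.σ i y‖ ≤ ε := hW.norm_le i
  have hsig2 : ∀ y ∈ V i, ‖(K.σ i y).2‖ ≤ ε := fun y hy =>
    (norm_snd_le _).trans (hsig y hy)
  have hWpos : ∀ y ∈ V i, 0 ≤ W i y := fun y hy =>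
    le_trans (by positivity) (hW.lower i y hy)
  have hWz : ∀ y ∈ V i, W (i + 1) (bA (K.σ i y)) ≤ ‖(K.σ i y).2‖ ^ 3 := by
    intro y hy
    have := hW.upper (i + 1) _ (hW.maps i y hy)
    rwa [norm_bA ((hsig y hy).trans (by linarith))] at this
  have hin : ∀ y ∈ V i, ∀ v : ℂ × ℂ, ‖v‖ ≤ ‖(K.σ i y).2‖ ^ 3 →
      hat (K.σ i y) v ∈ Metric.ball (0 : ℂ × ℂ) r := by
    intro y hy v hv
    have hh := (h1 (K.σ i y) v v ((hsig y hy).trans (by linarith)) hv hv).2
    have h5 : ‖(K.σ i y).2‖ ^ 2 ≤ ε ^ 2 :=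
      pow_le_pow_left₀ (norm_nonneg _) (hsig2 y hy) 2
    have h6 : ‖hat (K.σ i y) v‖ ≤ ‖hat (K.σ i y) v - K.σ i y‖ + ‖K.σ i y‖ := by
      have := norm_add_le (hat (K.σ i y) v - K.σ i y) (K.σ i y)
      rwa [sub_add_cancel] at this
    rw [mem_ball_zero_iff]
    have h7 := hsig y hy
    linarith
  refine ⟨?_, ?_⟩
  · intro y hy
    have hyε : ‖y‖ < ε := hW.small i y hy
    have hyδ : dist y 0 < δ := by
      rw [dist_zero_right]
      exact lt_of_lt_of_le hyε (hεε.trans hεb)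
    obtain ⟨hb, hs, hm⟩ := hδ' hyδ
    have hpb : K.σ i y ∈ Metric.ball (0 : ℂ × ℂ) r := by
      have := hin y hy 0 (by simp)
      rwa [hat_zero] at this
    rw [hat_zero]
    have hl := hlip _ hpb _ hm
    rw [e.left_inv hs] at hl
    have hb' : ‖K.σ i y - e y‖ ≤ C * ‖y‖ ^ (N + 1) := by
      rw [norm_sub_rev]
      have hn : ‖‖y‖ ^ (N + 1)‖ = ‖y‖ ^ (N + 1) := by
        rw [Real.norm_eq_abs, abs_of_nonneg (by positivity)]
      rw [hn] at hb
      exact hb
    have hc1 : L * ‖K.σ i y - e y‖ ≤ L * (C * ‖y‖ ^ (N + 1)) :=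
      mul_le_mul_of_nonneg_left hb' hL0.le
    have hc2 : L * (C * ‖y‖ ^ (N + 1)) = (L * C * ‖y‖) * ‖y‖ ^ N := by
      rw [pow_succ]
      ring
    have hc3 : (L * C * ‖y‖) * ‖y‖ ^ N ≤ (1 / 4) * ‖y‖ ^ N := by
      apply mul_le_mul_of_nonneg_right _ (by positivity)
      refine le_trans ?_ hLC
      exact mul_le_mul_of_nonneg_left hyε.le (by positivity)
    have hc4 := hW.lower i y hy
    linarith
  · intro w hwd hwb
    have hgv : ∀ y ∈ V i, ‖w (bA (K.σ i y))‖ ≤ ‖(K.σ i y).2‖ ^ 3 := fun y hy =>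
      (hwb _ (hW.maps i y hy)).trans (hWz y hy)
    refine ⟨fun y hy => hball (hin y hy _ (hgv y hy)), ?_, ?_⟩
    · -- differentiability
      have hσ : DifferentiableOn ℂ (K.σ i) (V i) := (K.diff i).mono (hW.subU i)
      have hσ1 : DifferentiableOn ℂ (fun y => (K.σ i y).1) (V i) := hσ.fst
      have hσ2 : DifferentiableOn ℂ (fun y => (K.σ i y).2) (V i) := hσ.snd
      have hbA : DifferentiableOn ℂ (fun y => bA (K.σ i y)) (V i) :=
        (hσ1.mul hσ2).prodMk hσ2
      have hg : DifferentiableOn ℂ (fun y => w (bA (K.σ i y))) (V i) :=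
        hwd.comp hbA (fun y hy => hW.maps i y hy)
      have hg1 : DifferentiableOn ℂ (fun y => (w (bA (K.σ i y))).1 / (K.σ i y).2) (V i) :=
        h2 (V i) (hW.isOpen i) (fun y => (w (bA (K.σ i y))).1) (fun y => (K.σ i y).2) hg.fst hσ2
          (fun y hy => (norm_fst_le _).trans (hgv y hy))
      have hg2 : DifferentiableOn ℂ (fun y => (w (bA (K.σ i y))).2 / (K.σ i y).2) (V i) :=
        h2 (V i) (hW.isOpen i) (fun y => (w (bA (K.σ i y))).2) (fun y => (K.σ i y).2) hg.snd hσ2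
          (fun y hy => (norm_snd_le _).trans (hgv y hy))
      have hne : ∀ y ∈ V i, 1 + (w (bA (K.σ i y))).2 / (K.σ i y).2 ≠ 0 := by
        intro y hy h0
        have hq : ‖(w (bA (K.σ i y))).2 / (K.σ i y).2‖ < 1 := by
          rcases eq_or_ne (K.σ i y).2 0 with hz | hz
          · rw [hz, div_zero, norm_zero]
            exact one_pos
          · have hzp : 0 < ‖(K.σ i y).2‖ := norm_pos_iff.2 hz
            rw [norm_div, div_lt_one hzp]
            have ha : ‖(w (bA (K.σ i y))).2‖ ≤ ‖(K.σ i y).2‖ ^ 3 :=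
              (norm_snd_le _).trans (hgv y hy)
            have hb : ‖(K.σ i y).2‖ ≤ 1 / 4 := (hsig2 y hy).trans hε4
            have hc : ‖(K.σ i y).2‖ ^ 2 ≤ (1 / 4) ^ 2 :=
              pow_le_pow_left₀ (norm_nonneg _) hb 2
            have hd : ‖(K.σ i y).2‖ ^ 3 = ‖(K.σ i y).2‖ ^ 2 * ‖(K.σ i y).2‖ := by ring
            nlinarith
        have h1' : (w (bA (K.σ i y))).2 / (K.σ i y).2 = -1 := by
          linear_combination h0
        rw [h1', norm_neg, norm_one] at hq
        exact lt_irrefl _ hq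
      have hone : DifferentiableOn ℂ (fun y => 1 + (w (bA (K.σ i y))).2 / (K.σ i y).2) (V i) :=
        hg2.const_add 1
      have hinv : DifferentiableOn ℂ
          (fun y => (1 + (w (bA (K.σ i y))).2 / (K.σ i y).2)⁻¹) (V i) :=
        fun y hy => (hone y hy).fun_inv (hne y hy)
      have hfst : DifferentiableOn ℂ (fun y => ((K.σ i y).1 + (w (bA (K.σ i y))).1 / (K.σ i y).2) /
          (1 + (w (bA (K.σ i y))).2 / (K.σ i y).2)) (V i) := by
        have := (hσ1.add hg1).mul hinv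
        refine this.congr (fun y hy => ?_)
        simp [div_eq_mul_inv]
      have hhat : DifferentiableOn ℂ (fun y => hat (K.σ i y) (w (bA (K.σ i y)))) (V i) :=
        hfst.prodMk (hσ2.mul hone)
      have hcomp : DifferentiableOn ℂ (fun y => e.symm (hat (K.σ i y) (w (bA (K.σ i y))))) (V i) :=
        he.diff'.comp hhat (fun y hy => hball (hin y hy _ (hgv y hy)))
      exact hcomp.sub differentiableOn_id
    · -- Lipschitz estimate
      intro w' hwb' κ hκ hdiff y hy
      have hv := hgv y hy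
      have hv' : ‖w' (bA (K.σ i y))‖ ≤ ‖(K.σ i y).2‖ ^ 3 :=
        (hwb' _ (hW.maps i y hy)).trans (hWz y hy)
      have hl := hlip _ (hin y hy _ hv) _ (hin y hy _ hv')
      have hWy := hWpos y hy
      have hkey : ‖hat (K.σ i y) (w (bA (K.σ i y))) - hat (K.σ i y) (w' (bA (K.σ i y)))‖ ≤
          5 * κ * ε * W i y := by
        rcases eq_or_ne (K.σ i y).2 0 with hz | hz
        · rw [hz, norm_zero] at hv hv'
          have ha : w (bA (K.σ i y)) = 0 := by
            apply norm_le_zero_iff.1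
            simpa using hv
          have hb : w' (bA (K.σ i y)) = 0 := by
            apply norm_le_zero_iff.1
            simpa using hv'
          rw [ha, hb, sub_self, norm_zero]
          positivity
        · have hzp : 0 < ‖(K.σ i y).2‖ := norm_pos_iff.2 hz
          have hh := (h1 (K.σ i y) _ _ ((hsig y hy).trans (by linarith)) hv hv').1
          have hd := hdiff _ (hW.maps i y hy)
          have hst := hW.step i y hy
          have hd2 : κ * W (i + 1) (bA (K.σ i y)) ≤ κ * (ε * ‖(K.σ i y).2‖ * W i y) :=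
            mul_le_mul_of_nonneg_left hst hκ
          have hfin : ‖hat (K.σ i y) (w (bA (K.σ i y))) - hat (K.σ i y) (w' (bA (K.σ i y)))‖ *
              ‖(K.σ i y).2‖ ≤ (5 * κ * ε * W i y) * ‖(K.σ i y).2‖ := by
            calc _ ≤ 5 * ‖w (bA (K.σ i y)) - w' (bA (K.σ i y))‖ := hh
              _ ≤ 5 * (κ * W (i + 1) (bA (K.σ i y))) := by linarith
              _ ≤ 5 * (κ * (ε * ‖(K.σ i y).2‖ * W i y)) := by linarith
              _ = (5 * κ * ε * W i y) * ‖(K.σ i y).2‖ := by ring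
          exact le_of_mul_le_mul_right hfin hzp
      calc _ ≤ L * ‖hat (K.σ i y) (w (bA (K.σ i y))) - hat (K.σ i y) (w' (bA (K.σ i y)))‖ := hl
        _ ≤ L * (5 * κ * ε * W i y) := mul_le_mul_of_nonneg_left hkey hL0.le
        _ = (20 * L * ε) * (κ / 4 * W i y) := by ring
        _ ≤ 1 * (κ / 4 * W i y) := mul_le_mul_of_nonneg_right hL20 (by positivity)
        _ = κ / 4 * W i y := one_mul _

end Pool.Agent.H287.KT
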